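import Pool.Agent.H989.DY.Spd
import Pool.Agent.H989.DY.Lod
import Pool.Agent.H989.DY.DyEx

/-!
# The dynamical mobility edge of the Gaussian Anderson model on `ℤ^d` in high dimension

`H_σ = Δ + σ ξ` on `ℓ²(ℤ^d)`, `ξ(x)` i.i.d. standard Gaussian with density `φ`. Put

  `σ₀ = 8 φ(0) d log d`,  `E₀(σ) = |σ| √(2 log (σ₀ / |σ|))`  (`0` for `|σ| ≥ σ₀`).

Let `ψ` be the solution of the Schrödinger equation `i ψ' = H_σ ψ`, `ψ(0) = δ_a` (it exists and is unique for every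
realization). Its energy is `σ ξ(a)`, up to the hopping term. Let `B, ε > 0`. There are `d₀` and `c > 0` such that
for all `d ≥ d₀`:

* (1) for `|σ| ≥ (1 + ε) σ₀`: for each `η > 0` there is `R`, which depends on `B, ε, η` only, such that for each site
  `a`, outside an event of probability `η`, the particle which starts at `a` is for all times within the distance `R`
  of `a` up to the probability `η`;
* (2a) for `σ ≠ 0` with `E₀(σ) ≤ B |σ|` (that is `|σ| ≥ exp (-B² / 2) σ₀`): the same with `η = ε` and `R` which depends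
  on `B, ε` only, if `|σ ξ(a)| ≥ E₀(σ) + ε |σ|`;
* (2b) for `|σ| ≥ 2 d`: if `|σ ξ(a)| ≤ min (E₀(σ), B |σ|) - ε |σ|`, then outside an event of probability `ε` the
  particle which starts at `a` spends in each time interval `[0, T]` with `T ≥ exp (2 (log (2 d))³)` at most the
  fraction `ε` of the time within the distance `c log d / (log log d)²` of `a`.

So `E₀` is, exactly to leading order as `d → ∞`, the energy at which the particle gets free from balls whose radius does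
not depend on `d`. There is no assumption on the nature of the spectrum.
-/

set_option autoImplicit false
set_option linter.unusedVariables false

open scoped BigOperators
open MeasureTheory ProbabilityTheory

namespace Pool.Agent.Results.MP_1906c1_mp.DynamicalMobilityEdge

/-- the Hamiltonian `H_σ = Δ + σ ξ` on `ℤ^d`:
`(H u)(x) = ∑_i (u(x + e_i) + u(x - e_i)) + σ ξ(x) u(x)` -/
noncomputable def H {d : ℕ} (σ : ℝ) (ξ : (Fin d → ℤ) → ℝ) (u : (Fin d → ℤ) → ℂ)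
    (x : Fin d → ℤ) : ℂ :=
  ∑ i : Fin d, (u (x + Pi.single i 1) + u (x - Pi.single i 1)) + ((σ * ξ x : ℝ) : ℂ) * u x

/-- the law of the disorder: i.i.d. standard Gaussian -/
noncomputable def gauss (d : ℕ) : Measure ((Fin d → ℤ) → ℝ) :=
  Measure.infinitePi fun _ : Fin d → ℤ => gaussianReal 0 1

/-- the critical coupling `σ₀ = 8 φ(0) d log d`, `φ` the standard Gaussian density -/
noncomputable def criticalCoupling (d : ℕ) : ℝ := 8 * gaussianPDFReal 0 1 0 * (d * Real.log d)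

/-- the mobility edge `E₀(σ) = |σ| √(2 log (σ₀ / |σ|))`, which is `0` for `|σ| ≥ σ₀` -/
noncomputable def edge (d : ℕ) (σ : ℝ) : ℝ :=
  |σ| * Real.sqrt (2 * Real.log (criticalCoupling d / |σ|))

/-- `ψ` is the wave packet which starts at `a`: the solution of `i ψ' = H_σ ψ`, `ψ(0) = δ_a`, with
`‖ψ(t)‖ = 1` in `ℓ²` for all times `t` -/
structure WavePacket {d : ℕ} (σ : ℝ) (ξ : (Fin d → ℤ) → ℝ) (a : Fin d → ℤ)
    (ψ : ℝ → (Fin d → ℤ) → ℂ) : Prop where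
  start : ∀ x, ψ 0 x = if x = a then 1 else 0
  schroedinger : ∀ t x, HasDerivAt (fun s => ψ s x) (-Complex.I * H σ ξ (ψ t) x) t
  normalized : ∀ t, HasSum (fun x => ‖ψ t x‖ ^ 2) 1

/-- for each site `a`, outside an event of probability at most `η`: if `σ ξ(a)` is in `J`, then for all
times `t` the wave packet which starts at `a` has at most the mass `η` at distances larger than `R`
from `a` -/
def Stays (d : ℕ) (σ : ℝ) (J : Set ℝ) (R η : ℝ) : Prop :=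
  ∀ a : Fin d → ℤ, ∃ G : Set ((Fin d → ℤ) → ℝ), MeasurableSet G ∧ 1 - η ≤ (gauss d).real G ∧
    ∀ ξ ∈ G, σ * ξ a ∈ J → ∀ ψ : ℝ → (Fin d → ℤ) → ℂ, WavePacket σ ξ a ψ →
      ∀ (t : ℝ) (F : Finset (Fin d → ℤ)), (∀ y ∈ F, R < ∑ i, |(y i : ℝ)|) →
        ∑ y ∈ F, ‖ψ t (a + y)‖ ^ 2 ≤ η

/-- for each site `a`, outside an event of probability at most `η`: if `σ ξ(a)` is in `J`, then for all
`T ≥ T₀` the time average over `[0, T]` of the mass of the wave packet which starts at `a` at distances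
at most `r` from `a` is at most `η` -/
def Leaves (d : ℕ) (σ : ℝ) (J : Set ℝ) (r T₀ η : ℝ) : Prop :=
  ∀ a : Fin d → ℤ, ∃ G : Set ((Fin d → ℤ) → ℝ), MeasurableSet G ∧ 1 - η ≤ (gauss d).real G ∧
    ∀ ξ ∈ G, σ * ξ a ∈ J → ∀ ψ : ℝ → (Fin d → ℤ) → ℂ, WavePacket σ ξ a ψ →
      ∀ (T : ℝ) (F : Finset (Fin d → ℤ)), T₀ ≤ T → (∀ y ∈ F, ∑ i, |(y i : ℝ)| ≤ r) →
        (1 / T) * ∫ t in (0 : ℝ)..T, ∑ y ∈ F, ‖ψ t (a + y)‖ ^ 2 ≤ η

/-- the radius `c log d / (log log d)²` -/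
noncomputable def radius (c : ℝ) (d : ℕ) : ℝ := c * Real.log d / Real.log (Real.log d) ^ 2

/-- the time `exp (2 (log (2 d))³)` -/
noncomputable def time (d : ℕ) : ℝ := Real.exp (2 * Real.log (2 * d) ^ 3)

theorem wave_iff {d : ℕ} {σ : ℝ} {ξ : (Fin d → ℤ) → ℝ} {a : Fin d → ℤ}
    {ψ : ℝ → (Fin d → ℤ) → ℂ} :
    WavePacket σ ξ a ψ ↔ Pool.Agent.H989.DY.Ev d (fun x => σ * ξ x) a ψ :=
  ⟨fun h => ⟨h.start, h.schroedinger, h.normalized⟩, fun h => ⟨h.init, h.ode, h.norm⟩⟩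

/-- **The dynamical mobility edge in high dimension.** -/
theorem result (B ε : ℝ) (hB : 0 < B) (hε : 0 < ε) :
    (∀ (d : ℕ) (σ : ℝ) (ξ : (Fin d → ℤ) → ℝ) (a : Fin d → ℤ), ∃! ψ, WavePacket σ ξ a ψ) ∧
    ∃ (d₀ : ℕ) (c : ℝ), 0 < c ∧
      -- (1)
      (∀ η : ℝ, 0 < η → ∃ R : ℕ, ∀ d : ℕ, d₀ ≤ d → ∀ σ : ℝ, (1 + ε) * criticalCoupling d ≤ |σ| →
        Stays d σ Set.univ R η) ∧
      -- (2a)
      (∃ R : ℕ, ∀ d : ℕ, d₀ ≤ d → ∀ σ : ℝ, σ ≠ 0 → edge d σ ≤ B * |σ| →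
        Stays d σ {E | edge d σ + ε * |σ| ≤ |E|} R ε) ∧
      -- (2b)
      ∀ d : ℕ, d₀ ≤ d → ∀ σ : ℝ, 2 * (d : ℝ) ≤ |σ| →
        Leaves d σ {E | |E| ≤ min (edge d σ) (B * |σ|) - ε * |σ|} (radius c d) (time d) ε := by
  obtain ⟨⟨d₁, h1⟩, d₂, R₂, h2⟩ := Pool.Agent.H989.DY.loc_dyn hB.le hε
  obtain ⟨c, hc, d₃, h3⟩ := Pool.Agent.H989.DY.dyn_edge hB.le hε
  have hedge : ∀ (d : ℕ) (σ : ℝ), edge d σ = Pool.Agent.H989.ME.be d σ * |σ| := fun d σ => by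
    rw [edge, Pool.Agent.H989.ME.be, mul_comm]; rfl
  have hle : ∀ (d : ℕ) (σ : ℝ), σ ≠ 0 → (edge d σ ≤ B * |σ| ↔ Pool.Agent.H989.ME.be d σ ≤ B) := by
    intro d σ hσ
    rw [hedge]
    exact mul_le_mul_iff_left₀ (abs_pos.mpr hσ)
  have hset : ∀ (d : ℕ) (σ : ℝ), edge d σ + ε * |σ| = (Pool.Agent.H989.ME.be d σ + ε) * |σ| := by
    intro d σ; rw [hedge]; ring
  have hmin : ∀ (d : ℕ) (σ : ℝ), min (edge d σ) (B * |σ|) - ε * |σ| =
      (min (Pool.Agent.H989.ME.be d σ) B - ε) * |σ| := by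
    intro d σ
    rw [hedge, ← min_mul_of_nonneg _ _ (abs_nonneg σ)]
    ring
  refine ⟨fun d σ ξ a => ?_, max (max d₁ d₂) (max d₃ 1), c, hc, fun η hη => ?_, ⟨R₂, ?_⟩, ?_⟩
  · obtain ⟨ψ, hψ⟩ := Pool.Agent.H989.DY.ev_exists (fun x => σ * ξ x) a
    exact ⟨ψ, wave_iff.2 hψ, fun φ hφ => Pool.Agent.H989.DY.ev_unique (wave_iff.1 hφ) hψ⟩
  · obtain ⟨R, hR⟩ := h1 η hη
    refine ⟨R, fun d hd σ hσ a => ?_⟩
    obtain ⟨G, hG, hP, hG3⟩ := hR d ((le_trans (le_max_left _ _) (le_max_left _ _)).trans hd) σ hσ a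
    exact ⟨G, hG, hP, fun ξ hξ _ ψ hψ t F hF =>
      hG3 ξ hξ (abs_nonneg _) ψ (wave_iff.1 hψ) t F hF⟩
  · intro d hd σ hσ hb a
    obtain ⟨G, hG, hP, hG3⟩ := h2 d ((le_trans (le_max_right _ _) (le_max_left _ _)).trans hd) σ hσ
      ((hle d σ hσ).1 hb) a
    refine ⟨G, hG, hP, fun ξ hξ hJ ψ hψ t F hF => hG3 ξ hξ ?_ ψ (wave_iff.1 hψ) t F hF⟩
    have hJ' : edge d σ + ε * |σ| ≤ |σ * ξ a| := hJ
    rw [hset, abs_mul, mul_comm |σ|] at hJ'
    exact le_of_mul_le_mul_right hJ' (abs_pos.mpr hσ)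
  · intro d hd σ hσ a
    have hd1 : 1 ≤ d := (le_trans (le_max_right _ _) (le_max_right _ _)).trans hd
    have hσ0 : 0 < |σ| := by
      have : (1:ℝ) ≤ d := by exact_mod_cast hd1
      linarith
    obtain ⟨G, hG, hP, hG3⟩ := h3 d ((le_trans (le_max_left _ _) (le_max_right _ _)).trans hd) σ hσ a
    refine ⟨G, hG, hP, fun ξ hξ hJ ψ hψ T F hT hF => hG3 ξ hξ ?_ ψ (wave_iff.1 hψ) T hT F hF⟩
    have hJ' : |σ * ξ a| ≤ min (edge d σ) (B * |σ|) - ε * |σ| := hJ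
    rw [hmin, abs_mul, mul_comm |σ|] at hJ'
    exact le_of_mul_le_mul_right hJ' hσ0

end Pool.Agent.Results.MP_1906c1_mp.DynamicalMobilityEdge
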