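import Pool.Agent.H121.EU.Main
import Pool.Agent.H385.EU.OdoB

/-!
# The Anderson model on the lattice with Gaussian disorder and a weak ergodic long-range background

For every dimension `d ≠ 2` and every `ε > 0` there are `κ ∈ (0, ε]` and an ergodic environment of
limit-periodic hopping terms: a probability space `(K, P)` with a measure preserving ergodic action `τ` of
`ℤ^d` and a covariant measurable family `A^u`, `u ∈ K`, of symmetric, nonnegative, limit-periodic hopping
terms on `ℤ^d` with `∑_y A^u(x, y) = κ` for all `x` and `sup_x ∑_y A^u(x, y)^p < ∞` for all `p > 0`, such that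

`(H ψ)(x) = ∑_{|y - x| = 1} ψ(y) + ∑_y A^u(x, y) ψ(y) + σ ξ(x) ψ(x)`,

`ξ(x)` iid with a law `μ` in a class which contains the standard Gaussian law, has the following properties
(for all `u`, `σ` and `ξ` the operator is self-adjoint). The couplings `σ₀, σ₁ > 0` are the same for the
whole class.

1. For `|σ| ≥ σ₁` and all `u`, almost surely, the spectrum is pure point (and dense in `ℝ`).
2. (a) For `0 < |σ| ≤ σ₀` and all `u`, almost surely, the spectrum in `{|E| ≥ 2 d + ε}` is pure point, and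
   the eigenvalues are dense there. For every `σ ≠ 0` the same holds in `{|E| ≥ E₀(σ)}` for some `E₀(σ)`.
   (b) For EVERY `σ` with `0 < |σ| ≤ σ₀`, for almost all `(u, ξ)`, the spectrum in `[-2d + ε, 2d - ε]` is
   purely absolutely continuous, and fills this interval.

This is the picture of a mobility edge (Q1) for the lattice Laplacian with an arbitrarily small stationary
ergodic background, which depends neither on the law of the disorder nor on the coupling.

Method. (b) Project Y of helper987 (a tower of periodic networks on `ℤ^d` with longer and longer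
periods, each of them locally covered by a tree of sheets of the previous one) for potentials clipped at
an arbitrary level, with estimates in terms of the moments of the single site law only; then the clip
level is sent to infinity. The estimates hold on average over the phases of the networks, uniformly in the
law, so one uses the hull of the tower, on which the translations act as an odometer (uniquely ergodic).
1 and (a): fractional moments of order `s` close to one with the row sums of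
the `s`-th powers of the hopping, decoupling inequalities for laws with tails; second moments are
bounded by fractional moments (Graf), and pure point spectrum follows from a Wiener type theorem
localized in energy. The unbounded operators are described by their resolvents (norm limits of the
resolvents with clipped potentials).
-/

set_option autoImplicit false

open scoped BigOperators
open MeasureTheory

namespace Pool.Agent.Results.MP_1906c1_mp.ErgodicGaussianMobilityEdge

/-- the Hamiltonian `H = Δ + A + σ ξ` on the lattice `ℤ^d`: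
`(H u)(x) = ∑_i (u(x + e_i) + u(x - e_i)) + ∑_y A(x, y) u(y) + σ ξ(x) u(x)` -/
noncomputable def H {d : ℕ} (A : (Fin d → ℤ) → (Fin d → ℤ) → ℝ) (σ : ℝ) (ξ : (Fin d → ℤ) → ℝ)
    (u : (Fin d → ℤ) → ℂ) (x : Fin d → ℤ) : ℂ :=
  ∑ i : Fin d, (u (x + Pi.single i 1) + u (x - Pi.single i 1)) +
    ∑' y, ((A x y : ℝ) : ℂ) * u y + ((σ * ξ x : ℝ) : ℂ) * u x

/-- a kernel on the lattice which is periodic (with period `N` in all directions) and has finite
range -/
def PeriodicFiniteRange {d : ℕ} (B : (Fin d → ℤ) → (Fin d → ℤ) → ℝ) : Prop :=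
  ∃ N R : ℕ, 0 < N ∧ (∀ x y v, B (x + (N : ℤ) • v) (y + (N : ℤ) • v) = B x y) ∧
    ∀ x y, B x y ≠ 0 → ∀ i, |x i - y i| ≤ R

/-- a weak limit-periodic hopping: `A(x, y) = A(y, x) ≥ 0`, `∑_y A(x, y) = κ` for all `x`, the sums
`∑_y A(x, y)^p` are bounded for every `p > 0`, and `A` is a limit, in the norm
`sup_x ∑_y |·|`, of periodic kernels of finite range -/
structure Background {d : ℕ} (κ : ℝ) (A : (Fin d → ℤ) → (Fin d → ℤ) → ℝ) : Prop where
  nonneg : ∀ x y, 0 ≤ A x y
  symm : ∀ x y, A x y = A y x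
  total : ∀ x, HasSum (fun y => A x y) κ
  moments : ∀ p : ℝ, 0 < p → ∃ S : ℝ, ∀ x, (Summable fun y => A x y ^ p) ∧ ∑' y, A x y ^ p ≤ S
  limitPeriodic : ∀ δ : ℝ, 0 < δ → ∃ B : (Fin d → ℤ) → (Fin d → ℤ) → ℝ, PeriodicFiniteRange B ∧
    ∀ x, (Summable fun y => |A x y - B x y|) ∧ ∑' y, |A x y - B x y| ≤ δ

/-- an ergodic environment of weak limit-periodic hopping terms: a probability space `(K, P)` with a measure
preserving ergodic action `τ` of `ℤ^d` and a measurable covariant family `A u`, `u ∈ K`, of weak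
limit-periodic hopping terms -/
structure Environment {d : ℕ} {K : Type} [MeasurableSpace K] (P : Measure K)
    (τ : (Fin d → ℤ) → K → K) (κ : ℝ) (A : K → (Fin d → ℤ) → (Fin d → ℤ) → ℝ) : Prop where
  prob : IsProbabilityMeasure P
  zero : ∀ u, τ 0 u = u
  add : ∀ v w u, τ (v + w) u = τ v (τ w u)
  preserving : ∀ v, MeasurePreserving (τ v) P P
  ergodic : ∀ T : Set K, MeasurableSet T → (∀ v, τ v ⁻¹' T = T) → P T = 0 ∨ P T = 1
  measurable : ∀ x y, Measurable fun u => A u x y
  covariant : ∀ v u x y, A (τ v u) x y = A u (x + v) (y + v)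
  background : ∀ u, Background κ (A u)

/-- the laws of the disorder: symmetric, with full support, with a density at most `D / (1 + |v|)^4` and
with twelfth moment at most `D` -/
structure Law (D : ℝ) (μ : Measure ℝ) : Prop where
  symm : (μ.map fun v => -v) = μ
  pos : ∀ a b : ℝ, a < b → 0 < μ (Set.Ioo a b)
  density : ∀ T : Set ℝ, MeasurableSet T → μ T ≤ ∫⁻ v in T, ENNReal.ofReal (D / (1 + |v|) ^ 4)
  moment : ∫⁻ v, ENNReal.ofReal (v ^ 12) ∂μ ≤ ENNReal.ofReal D

/-- square summable functions -/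
def SqSummable {X : Type} (u : X → ℂ) : Prop := Summable fun x => ‖u x‖ ^ 2

/-- self-adjointness of `T` on its maximal domain in `ℓ²`: for all non-real `z` the equation
`(T - z) u = f` has exactly one solution `u` in `ℓ²` for every `f` in `ℓ²` -/
def SelfAdjointOn {X : Type} (T : (X → ℂ) → X → ℂ) : Prop :=
  ∀ (f : X → ℂ) (z : ℂ), SqSummable f → z.im ≠ 0 →
    ∃! u : X → ℂ, SqSummable u ∧ ∀ x, T u x - z * u x = f x

/-- `m` is the spectral measure of the vector `f`: a finite measure whose Borel transform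
`∫ (E - z)⁻¹ dm(E)` is `⟨f, (T - z)⁻¹ f⟩` for all non-real `z` -/
def IsSpectralMeasure {X : Type} (T : (X → ℂ) → X → ℂ) (f : X → ℂ) (m : Measure ℝ) : Prop :=
  IsFiniteMeasure m ∧ ∀ z : ℂ, z.im ≠ 0 → ∃ u : X → ℂ, SqSummable u ∧
    (∀ x, T u x - z * u x = f x) ∧ ∫ E : ℝ, ((E : ℂ) - z)⁻¹ ∂m = ∑' x, (starRingEnd ℂ) (f x) * u x

open Classical in
/-- the unit vector at `p` -/
noncomputable def unit {X : Type} (p : X) (x : X) : ℂ := if x = p then 1 else 0

/-- every vector has a spectral measure -/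
def HasSpectralMeasures {X : Type} (T : (X → ℂ) → X → ℂ) : Prop :=
  ∀ f : X → ℂ, SqSummable f → ∃ m : Measure ℝ, IsSpectralMeasure T f m

/-- the spectrum in `I` is purely absolutely continuous: all spectral measures are absolutely
continuous with respect to the Lebesgue measure in `I` -/
def PurelyAC {X : Type} (T : (X → ℂ) → X → ℂ) (I : Set ℝ) : Prop :=
  ∀ (f : X → ℂ) (m : Measure ℝ), SqSummable f → IsSpectralMeasure T f m →
    ∀ E : Set ℝ, E ⊆ I → volume E = 0 → m E = 0

/-- the spectrum fills `I`: in `I` the Lebesgue measure is absolutely continuous with respect to the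
spectral measure of every site -/
def Fills {X : Type} (T : (X → ℂ) → X → ℂ) (I : Set ℝ) : Prop :=
  ∀ (x : X) (m : Measure ℝ), IsSpectralMeasure T (unit x) m →
    ∀ E : Set ℝ, E ⊆ I → MeasurableSet E → m E = 0 → volume E = 0

/-- the spectrum in `I` is pure point: in `I` all spectral measures are carried by countable sets -/
def PurePoint {X : Type} (T : (X → ℂ) → X → ℂ) (I : Set ℝ) : Prop :=
  ∀ (f : X → ℂ) (m : Measure ℝ), SqSummable f → IsSpectralMeasure T f m →
    ∃ N : Set ℝ, N.Countable ∧ m (I \ N) = 0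

/-- the eigenvalues are dense in `I`: every nonempty open interval contained in `I` contains an
eigenvalue -/
def DenseEigenvalues {X : Type} (T : (X → ℂ) → X → ℂ) (I : Set ℝ) : Prop :=
  ∀ a b : ℝ, a < b → Set.Ioo a b ⊆ I → ∃ (t : ℝ) (u : X → ℂ), t ∈ Set.Ioo a b ∧ SqSummable u ∧
    (∃ x, u x ≠ 0) ∧ ∀ x, T u x = (t : ℂ) * u x

/-- **Theorem.** -/
theorem result (d : ℕ) (hd : 1 ≤ d) (hd2 : d ≠ 2) (ε : ℝ) (hε : 0 < ε) :
    -- the standard Gaussian law belongs to the class of laws
    (∃ D : ℝ, 1 ≤ D ∧ Law D (ProbabilityTheory.gaussianReal 0 1)) ∧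
    ∃ (κ : ℝ) (K : Type) (_ : MeasurableSpace K) (P : Measure K)
      (τ : (Fin d → ℤ) → K → K) (A : K → (Fin d → ℤ) → (Fin d → ℤ) → ℝ), 0 < κ ∧ κ ≤ ε ∧
      Environment P τ κ A ∧
      (∀ (u : K) (σ : ℝ) (ξ : (Fin d → ℤ) → ℝ),
        SelfAdjointOn (H (A u) σ ξ) ∧ HasSpectralMeasures (H (A u) σ ξ)) ∧
      ∀ D : ℝ, 1 ≤ D → ∃ σ0 σ1 : ℝ, 0 < σ0 ∧ 0 < σ1 ∧
      ∀ (μ : Measure ℝ) [IsProbabilityMeasure μ], Law D μ →
      -- strong disorder
      (∀ σ : ℝ, σ1 ≤ |σ| → ∀ u, ∀ᵐ ξ ∂(Measure.infinitePi fun _ : Fin d → ℤ => μ),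
        PurePoint (H (A u) σ ξ) Set.univ ∧ DenseEigenvalues (H (A u) σ ξ) Set.univ) ∧
      -- weak disorder, outside of the band
      (∀ σ : ℝ, σ ≠ 0 → |σ| ≤ σ0 → ∀ u, ∀ᵐ ξ ∂(Measure.infinitePi fun _ : Fin d → ℤ => μ),
        PurePoint (H (A u) σ ξ) {E | 2 * d + ε ≤ |E|} ∧
        DenseEigenvalues (H (A u) σ ξ) {E | 2 * d + ε ≤ |E|}) ∧
      -- every disorder, large energies
      (∀ σ : ℝ, σ ≠ 0 → ∃ E0 : ℝ, 0 < E0 ∧ ∀ u,
        ∀ᵐ ξ ∂(Measure.infinitePi fun _ : Fin d → ℤ => μ),
        PurePoint (H (A u) σ ξ) {E | E0 ≤ |E|} ∧ DenseEigenvalues (H (A u) σ ξ) {E | E0 ≤ |E|}) ∧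
      -- weak disorder, inside of the band
      (∀ σ : ℝ, σ ≠ 0 → |σ| ≤ σ0 → ∀ᵐ u ∂P,
        ∀ᵐ ξ ∂(Measure.infinitePi fun _ : Fin d → ℤ => μ),
        PurelyAC (H (A u) σ ξ) (Set.Icc (-(2 * d - ε)) (2 * d - ε)) ∧
        Fills (H (A u) σ ξ) (Set.Icc (-(2 * d - ε)) (2 * d - ε))) := by
  constructor
  · obtain ⟨D, hD, h1, h2, h3, h4⟩ := Pool.Agent.H121.EU.gauss_law
    exact ⟨D, hD, h1, h2, h3, h4⟩
  obtain ⟨κ, K, mK, P, τ, A, k1, k2, ⟨o1, o2, o3, o4, o5, o6, o7⟩, hA, b1, h⟩ :=
    Pool.Agent.H121.EU.mainB (Pool.Agent.H385.EU.odoB Pool.Agent.H307.EU.odoA) d hd hd2 ε hε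
  refine ⟨κ, K, mK, P, τ, A, k1, k2, ⟨o1, o2, o3, o4, o5, o6, o7, fun u => ?_⟩, b1, fun D hD => ?_⟩
  · obtain ⟨a1, a2, a3, a4, a5⟩ := hA u
    refine ⟨a1, a2, a3, a4, fun δ hδ => ?_⟩
    obtain ⟨N, R, B, b1, b2, b3, b4⟩ := a5 δ hδ
    exact ⟨B, ⟨N, R, b1, b2, b3⟩, b4⟩
  obtain ⟨σ0, σ1, k3, k4, hm⟩ := h D hD
  refine ⟨σ0, σ1, k3, k4, fun μ _ hμ => ?_⟩
  obtain ⟨b2, b3, b4, b5⟩ := hm μ ⟨hμ.symm, hμ.pos, hμ.density, hμ.moment⟩
  refine ⟨fun σ hσ u => ?_, b3, b4, fun σ hσ hσ0 => ?_⟩
  · filter_upwards [b2 σ hσ u] with ξ hξ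
    exact ⟨hξ.1, fun a b hab _ => hξ.2 a b hab⟩
  · filter_upwards [b5 σ hσ hσ0] with u h1
    filter_upwards [h1] with ξ hξ
    obtain ⟨c1, c2, c3⟩ := hξ
    refine ⟨c2, fun x m hm => c3 x m ?_⟩
    have h5 : (fun y => (Pool.Agent.Y662.TR.dv x :
        Pool.Agent.Y662.TR.LL (Fin d → ℤ)) y) = unit x := by
      funext y
      rw [Pool.Agent.Y662.TR.dv_apply]
      rfl
    beta_reduce
    rw [h5]
    exact hm

end Pool.Agent.Results.MP_1906c1_mp.ErgodicGaussianMobilityEdge
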