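import Pool.Agent.H989.ME.Loc
import Pool.Agent.H989.ME.Spr

/-!
# The mobility edge of the Gaussian Anderson model on `ℤ^d` in high dimension

`H_σ = Δ + σ ξ` on `ℓ²(ℤ^d)`, `ξ(x)` i.i.d. standard Gaussian with density `φ`. Put

  `σ₀ = 8 φ(0) d log d`,  `E₀(σ) = |σ| √(2 log (σ₀ / |σ|))`  (`0` for `|σ| ≥ σ₀`).

Let `B, ε > 0`. There are `d₀` and `γ, c > 0` such that for all `d ≥ d₀`:

* (1) for `|σ| ≥ (1 + ε) σ₀`, almost surely the spectrum is pure point, the eigenvalues are dense and simple, and all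
  eigenfunctions decay exponentially with the rate `γ`;
* (2a) for `σ ≠ 0` with `E₀(σ) ≤ B |σ|` (that is `|σ| ≥ exp (-B² / 2) σ₀`) the same holds in
  `{|E| ≥ E₀(σ) + ε |σ|}`; in (1) and (2a) the localization radii are bounded uniformly in `d` and `σ`: for `M, η > 0`
  there is `R` such that at each site `a`, outside an event of probability `η`, the eigenfunctions with energies in
  this region and `|E| ≤ M |σ|` which have at least the part `η` of their mass farther than `R` from `a` have together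
  at most the weight `η` at `a`;
* (2b) for `|σ| ≥ 2 d`, in `{|E| ≤ min (E₀(σ), B |σ|) - ε |σ|}` the eigenfunctions, if there are any, are spread: at
  each site `a`, outside an event of probability `ε`, those which have at least the part `1 / N` of their mass within
  the distance `R` of `a` have together at most the weight `ε` at `a`, where `R = c log d / (log log d)²` and
  `N = exp (c (log d / log log d)²)` is larger than every power of `d`; and, for every finite set `Λ` of sites,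
  outside an event of probability `ε` at most `ε |Λ|` orthonormal ones have at least the part `ε` of their mass on
  at most `N` sites of `Λ`.

So `σ₀` is the critical coupling and `E₀` the mobility edge, exactly to leading order as `d → ∞`, of the transition
from radii bounded uniformly in `d` to radii which grow with `d`. On the tree of degree `K = 2 d` with the same
disorder this is the transition from localized to extended states (`|σ| = 4 ρ K log K`, `ρ = φ(E / σ)`).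
-/

set_option autoImplicit false
set_option linter.unusedVariables false

open scoped BigOperators
open MeasureTheory ProbabilityTheory

namespace Pool.Agent.Results.MP_1906c1_mp.HighDimMobilityEdge

/-- the Hamiltonian `H_σ = Δ + σ ξ` on `ℤ^d`:
`(H u)(x) = ∑_i (u(x + e_i) + u(x - e_i)) + σ ξ(x) u(x)` -/
noncomputable def H {d : ℕ} (σ : ℝ) (ξ : (Fin d → ℤ) → ℝ) (u : (Fin d → ℤ) → ℂ)
    (x : Fin d → ℤ) : ℂ :=
  ∑ i : Fin d, (u (x + Pi.single i 1) + u (x - Pi.single i 1)) + ((σ * ξ x : ℝ) : ℂ) * u x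

/-- the law of the disorder: i.i.d. standard Gaussian -/
noncomputable def gauss (d : ℕ) : Measure ((Fin d → ℤ) → ℝ) :=
  Measure.infinitePi fun _ : Fin d → ℤ => gaussianReal 0 1

/-- the critical coupling `σ₀ = 8 φ(0) d log d`, `φ` the standard Gaussian density -/
noncomputable def criticalCoupling (d : ℕ) : ℝ := 8 * gaussianPDFReal 0 1 0 * (d * Real.log d)

/-- the mobility edge `E₀(σ) = |σ| √(2 log (σ₀ / |σ|))`, which is `0` for `|σ| ≥ σ₀` -/
noncomputable def edge (d : ℕ) (σ : ℝ) : ℝ :=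
  |σ| * Real.sqrt (2 * Real.log (criticalCoupling d / |σ|))

/-- square summable functions -/
def SqSummable {X : Type} (u : X → ℂ) : Prop := Summable fun x => ‖u x‖ ^ 2

/-- self-adjointness of `T` on its maximal domain in `ℓ²`: for all non-real `z` the equation
`(T - z) u = f` has exactly one solution `u` in `ℓ²` for every `f` in `ℓ²` -/
def SelfAdjointOn {X : Type} (T : (X → ℂ) → X → ℂ) : Prop :=
  ∀ (f : X → ℂ) (z : ℂ), SqSummable f → z.im ≠ 0 →
    ∃! u : X → ℂ, SqSummable u ∧ ∀ x, T u x - z * u x = f x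

/-- `m` is the spectral measure of the vector `f`: a finite measure whose Borel transform
`∫ (E - z)⁻¹ dm(E)` is `⟨f, (T - z)⁻¹ f⟩` for all non-real `z` -/
def IsSpectralMeasure {X : Type} (T : (X → ℂ) → X → ℂ) (f : X → ℂ) (m : Measure ℝ) : Prop :=
  IsFiniteMeasure m ∧ ∀ z : ℂ, z.im ≠ 0 → ∃ u : X → ℂ, SqSummable u ∧
    (∀ x, T u x - z * u x = f x) ∧ ∫ E : ℝ, ((E : ℂ) - z)⁻¹ ∂m = ∑' x, (starRingEnd ℂ) (f x) * u x

/-- every vector has a spectral measure -/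
def HasSpectralMeasures {X : Type} (T : (X → ℂ) → X → ℂ) : Prop :=
  ∀ f : X → ℂ, SqSummable f → ∃ m : Measure ℝ, IsSpectralMeasure T f m

/-- the spectrum in `J` is pure point: in `J` all spectral measures are carried by countable sets -/
def PurePoint {X : Type} (T : (X → ℂ) → X → ℂ) (J : Set ℝ) : Prop :=
  ∀ (f : X → ℂ) (m : Measure ℝ), SqSummable f → IsSpectralMeasure T f m →
    ∃ N : Set ℝ, N.Countable ∧ m (J \ N) = 0

/-- the eigenvalues are dense in `J`: every nonempty open interval contained in `J` contains an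
eigenvalue -/
def DenseEigenvalues {X : Type} (T : (X → ℂ) → X → ℂ) (J : Set ℝ) : Prop :=
  ∀ a b : ℝ, a < b → Set.Ioo a b ⊆ J → ∃ (t : ℝ) (u : X → ℂ), t ∈ Set.Ioo a b ∧ SqSummable u ∧
    (∃ x, u x ≠ 0) ∧ ∀ x, T u x = (t : ℂ) * u x

/-- all `ℓ²`-eigenfunctions with energy in `J` decay exponentially, with the rate `γ` -/
def ExponentialDecay {d : ℕ} (T : ((Fin d → ℤ) → ℂ) → (Fin d → ℤ) → ℂ) (γ : ℝ) (J : Set ℝ) : Prop :=
  ∀ (E : ℝ) (u : (Fin d → ℤ) → ℂ), E ∈ J → SqSummable u → (∀ x, T u x = E * u x) →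
    Summable fun x => Real.exp (γ * ∑ i, |(x i : ℝ)|) * ‖u x‖ ^ 2

/-- all eigenvalues are simple -/
def SimpleEigenvalues {X : Type} (T : (X → ℂ) → X → ℂ) : Prop :=
  ∀ (E : ℝ) (u v : X → ℂ), SqSummable u → SqSummable v → (∀ x, T u x = E * u x) →
    (∀ x, T v x = E * v x) → (∃ x, u x ≠ 0) → ∃ a : ℂ, ∀ x, v x = a * u x

/-- exponential localization in `J` with the rate `γ`, almost surely -/
def Localized (d : ℕ) (σ γ : ℝ) (J : Set ℝ) : Prop :=
  ∀ᵐ ξ ∂(gauss d), PurePoint (H σ ξ) J ∧ DenseEigenvalues (H σ ξ) J ∧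
    ExponentialDecay (H σ ξ) γ J ∧ SimpleEigenvalues (H σ ξ)

/-- `u` is an orthonormal family of `ℓ²`-eigenfunctions of `H_σ` with energies in `J` -/
def EigenFamily {d : ℕ} (σ : ℝ) (ξ : (Fin d → ℤ) → ℝ) (J : Set ℝ) {n : ℕ}
    (u : Fin n → lp (fun _ : Fin d → ℤ => ℂ) 2) : Prop :=
  Orthonormal ℂ u ∧ ∃ E : Fin n → ℝ, (∀ j x, H σ ξ (u j) x = E j * u j x) ∧ ∀ j, E j ∈ J

/-- at least the mass `m` of `u` lies at finitely many sites whose distance from `a` is in `D` -/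
def MassAround {d : ℕ} (a : Fin d → ℤ) (D : Set ℝ) (m : ℝ)
    (u : lp (fun _ : Fin d → ℤ => ℂ) 2) : Prop :=
  ∃ A : Finset (Fin d → ℤ), (∀ y ∈ A, ∑ i, |(y i : ℝ)| ∈ D) ∧ m ≤ ∑ y ∈ A, ‖u (a + y)‖ ^ 2

/-- for each site `a`, outside an event of probability at most `η`, the eigenfunctions with energy in
`J` of which at least the mass `m` lies at distances in `D` from `a` have the total weight at most `η`
at `a` -/
def Rare (d : ℕ) (σ : ℝ) (J D : Set ℝ) (m η : ℝ) : Prop :=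
  ∀ a : Fin d → ℤ, ∃ G : Set ((Fin d → ℤ) → ℝ), MeasurableSet G ∧ 1 - η ≤ (gauss d).real G ∧
    ∀ ξ ∈ G, ∀ (n : ℕ) (u : Fin n → lp (fun _ : Fin d → ℤ => ℂ) 2), EigenFamily σ ξ J u →
      (∀ j, MassAround a D m (u j)) → ∑ j, ‖u j a‖ ^ 2 ≤ η

/-- for each finite set `Λ` of sites, outside an event of probability at most `η`, at most `η |Λ|`
orthonormal eigenfunctions with energy in `J` have at least the mass `η` on at most `N` sites of
`Λ` -/
def RareOnFewSites (d : ℕ) (σ : ℝ) (J : Set ℝ) (N η : ℝ) : Prop :=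
  ∀ Λ : Finset (Fin d → ℤ), ∃ G : Set ((Fin d → ℤ) → ℝ), MeasurableSet G ∧
    1 - η ≤ (gauss d).real G ∧
    ∀ ξ ∈ G, ∀ (n : ℕ) (u : Fin n → lp (fun _ : Fin d → ℤ => ℂ) 2), EigenFamily σ ξ J u →
      (∀ j, ∃ S : Finset (Fin d → ℤ), S ⊆ Λ ∧ (S.card : ℝ) ≤ N ∧ η ≤ ∑ x ∈ S, ‖u j x‖ ^ 2) →
      (n : ℝ) ≤ η * Λ.card

/-- the radius `c log d / (log log d)²` -/
noncomputable def radius (c : ℝ) (d : ℕ) : ℝ := c * Real.log d / Real.log (Real.log d) ^ 2

/-- the number of sites `exp (c (log d / log log d)²)` -/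
noncomputable def number (c : ℝ) (d : ℕ) : ℝ := Real.exp (c * (Real.log d / Real.log (Real.log d)) ^ 2)

/-- **The mobility edge in high dimension.** -/
theorem result (B ε : ℝ) (hB : 0 < B) (hε : 0 < ε) :
    ∃ (d₀ : ℕ) (γ c : ℝ), 0 < γ ∧ 0 < c ∧
      (∀ (d : ℕ) (σ : ℝ) (ξ : (Fin d → ℤ) → ℝ),
        SelfAdjointOn (H σ ξ) ∧ HasSpectralMeasures (H σ ξ)) ∧
      -- (1), (2a)
      (∀ d : ℕ, d₀ ≤ d → ∀ σ : ℝ, (1 + ε) * criticalCoupling d ≤ |σ| →
        Localized d σ γ Set.univ) ∧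
      (∀ d : ℕ, d₀ ≤ d → ∀ σ : ℝ, σ ≠ 0 → edge d σ ≤ B * |σ| →
        Localized d σ γ {E | edge d σ + ε * |σ| ≤ |E|}) ∧
      (∀ M η : ℝ, 0 < M → 0 < η → ∃ R : ℕ, ∀ d : ℕ, d₀ ≤ d → ∀ σ : ℝ,
        ((1 + ε) * criticalCoupling d ≤ |σ| →
          Rare d σ {E | |E| ≤ M * |σ|} (Set.Ioi R) η η) ∧
        (σ ≠ 0 → edge d σ ≤ B * |σ| →
          Rare d σ {E | edge d σ + ε * |σ| ≤ |E| ∧ |E| ≤ M * |σ|} (Set.Ioi R) η η)) ∧
      -- (2b)
      ∀ d : ℕ, d₀ ≤ d → ∀ σ : ℝ, 2 * (d : ℝ) ≤ |σ| →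
        Rare d σ {E | |E| ≤ min (edge d σ) (B * |σ|) - ε * |σ|} (Set.Iic (radius c d))
          (1 / number c d) ε ∧
        RareOnFewSites d σ {E | |E| ≤ min (edge d σ) (B * |σ|) - ε * |σ|} (number c d) ε := by
  obtain ⟨d₁, γ, hd₁, hγ, h0, h1, h2, h3⟩ := Pool.Agent.H989.ME.loc_edge hB.le hε
  obtain ⟨c, hc, d₂, h4⟩ := Pool.Agent.H989.ME.spr_edge hB.le hε
  have hedge : ∀ (d : ℕ) (σ : ℝ), edge d σ = Pool.Agent.H989.ME.be d σ * |σ| := fun d σ => by
    rw [edge, Pool.Agent.H989.ME.be, mul_comm]; rfl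
  have hle : ∀ (d : ℕ) (σ : ℝ), σ ≠ 0 → (edge d σ ≤ B * |σ| ↔ Pool.Agent.H989.ME.be d σ ≤ B) := by
    intro d σ hσ
    rw [hedge]
    exact mul_le_mul_iff_left₀ (abs_pos.mpr hσ)
  have hset : ∀ (d : ℕ) (σ : ℝ), edge d σ + ε * |σ| = (Pool.Agent.H989.ME.be d σ + ε) * |σ| := by
    intro d σ; rw [hedge]; ring
  have hconv : ∀ {d : ℕ} {σ : ℝ} {J : Set ℝ} {ξ : (Fin d → ℤ) → ℝ},
      Pool.Agent.H121.SH.LocIF (H σ ξ) γ (Pool.Agent.H121.SH.ra 0) J →
      PurePoint (H σ ξ) J ∧ DenseEigenvalues (H σ ξ) J ∧ ExponentialDecay (H σ ξ) γ J ∧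
        SimpleEigenvalues (H σ ξ) := by
    intro d σ J ξ hξ
    refine ⟨hξ.1, hξ.2.2.2, fun E u hE hu hEu => ?_, hξ.2.2.1⟩
    refine (hξ.2.1 E u hE hu hEu).congr fun x => ?_
    congr 3
    unfold Pool.Agent.H121.SH.ra
    push_cast
    refine Finset.sum_congr rfl fun i _ => ?_
    simp
  have hnum : ∀ d : ℕ, 1 / number c d =
      Real.exp (-(c * (Real.log d / Real.log (Real.log d)) ^ 2)) := by
    intro d; rw [number, Real.exp_neg, one_div]
  have hmin : ∀ (d : ℕ) (σ : ℝ), min (edge d σ) (B * |σ|) - ε * |σ| =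
      (min (Pool.Agent.H989.ME.be d σ) B - ε) * |σ| := by
    intro d σ
    rw [hedge, ← min_mul_of_nonneg _ _ (abs_nonneg σ)]
    ring
  refine ⟨max d₁ d₂, γ, c, hγ, hc, h0, fun d hd σ hσ => ?_, fun d hd σ hσ hb => ?_,
    fun M η hM hη => ?_, fun d hd σ hσ => ?_⟩
  · filter_upwards [h1 d ((le_max_left _ _).trans hd) σ hσ] with ξ hξ
    exact hconv hξ
  · rw [hset]
    filter_upwards [h2 d ((le_max_left _ _).trans hd) σ hσ ((hle d σ hσ).mp hb)] with ξ hξ
    exact hconv hξ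
  · obtain ⟨R, hR⟩ := h3 M η hM hη
    refine ⟨R, fun d hd σ => ⟨fun hσ a => ?_, fun hσ hb a => ?_⟩⟩
    · have hd1 := (le_max_left _ _).trans hd
      have hσ0 : σ ≠ 0 := by
        rintro rfl
        have := Pool.Agent.H989.ME.s0_pos (hd₁.trans hd1)
        have h5 : (1 + ε) * Pool.Agent.H989.ME.s0 d ≤ |(0:ℝ)| := hσ
        rw [abs_zero] at h5
        nlinarith
      obtain ⟨G, hG, hP, hG3⟩ := hR d hd1 σ 0 hσ0 (Or.inr ⟨rfl, hσ⟩) a
      refine ⟨G, hG, hP, fun ξ hξ n u hu hA => ?_⟩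
      obtain ⟨hu1, E, hE1, hE2⟩ := hu
      refine hG3 ξ hξ n u E hu1 hE1 (fun j => ⟨?_, hE2 j⟩) fun j => ?_
      · rw [zero_mul]; exact abs_nonneg _
      · obtain ⟨A, hA1, hA2⟩ := hA j
        exact ⟨A, fun y hy => hA1 y hy, hA2⟩
    · have hd1 := (le_max_left _ _).trans hd
      obtain ⟨G, hG, hP, hG3⟩ := hR d hd1 σ _ hσ (Or.inl ⟨rfl, (hle d σ hσ).mp hb⟩) a
      refine ⟨G, hG, hP, fun ξ hξ n u hu hA => ?_⟩
      obtain ⟨hu1, E, hE1, hE2⟩ := hu
      refine hG3 ξ hξ n u E hu1 hE1 (fun j => ⟨?_, (hE2 j).2⟩) fun j => ?_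
      · have := (hE2 j).1
        rw [hset] at this
        exact this
      · obtain ⟨A, hA1, hA2⟩ := hA j
        exact ⟨A, fun y hy => hA1 y hy, hA2⟩
  · have h5 := h4 d ((le_max_right _ _).trans hd) σ hσ
    rw [hmin]
    refine ⟨fun a => ?_, fun Λ => ?_⟩
    · obtain ⟨G, hG, hP, hG3⟩ := h5.1 a
      refine ⟨G, hG, hP, fun ξ hξ n u hu hA => ?_⟩
      obtain ⟨hu1, E, hE1, hE2⟩ := hu
      refine hG3 ξ hξ n u E hu1 hE1 hE2 fun j => ?_
      obtain ⟨A, hA1, hA2⟩ := hA j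
      refine ⟨A, fun y hy => hA1 y hy, le_trans (le_of_eq ?_) hA2⟩
      rw [hnum]
    · obtain ⟨G, hG, hP, hG3⟩ := h5.2 Λ
      refine ⟨G, hG, hP, fun ξ hξ n u hu hS => ?_⟩
      obtain ⟨hu1, E, hE1, hE2⟩ := hu
      exact hG3 ξ hξ n u E hu1 hE1 hE2 hS

end Pool.Agent.Results.MP_1906c1_mp.HighDimMobilityEdge
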