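import Pool.Agent.H121.ME.Layers
import Pool.Agent.H121.UE.Upp

/-!
# A mobility edge for an Anderson model with a homogeneous, amenable geometry, all laws of bounded density

The sites are `ℤ^d × F` (`d ≥ 1` arbitrary), `F` a countable, locally finite group: copies of the
lattice `ℤ^d`, with the kinetic energy `-Δ` in the copies and an arbitrarily small, homogeneous hopping
`c ≥ 0` between them (project Z of helper987, `MP_28b024_mp.AndersonTransition`). The potential `λ ω` is
iid with values in `[-1, 1]`.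

* For every law, `0 < λ ≤ λ0` (`λ0` does not depend on the law), the spectrum in the energy interval `[α, β]`
  in the interior of the band is almost surely purely absolutely continuous, and fills the interval.
* For EVERY law with a density bounded by `D` and every `λ > 0` let `E*` be the upper band edge
  `4 d + ∑ c + λ b` (`b` the upper end of the support of the law). Almost surely the spectrum in
  `(E* - η, ∞)` is pure point, with eigenfunctions decaying exponentially in the directions of `ℤ^d`, and there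
  are eigenvalues above every `E < E*`; `η > 0` and the rate of decay depend on `D` and `λ` only.
* For strong disorder all the spectrum is of this kind.

So for one and the same law (an arbitrary one with a bounded density, for instance the uniform law) and
`0 < λ ≤ λ0` there are extended states inside of the band and exponentially localized states near the upper
band edge.

Method of the localization part: fractional moments of order `1 - h`, `h` close to zero, with the absolute
values of the matrix elements of the kinetic energy (whose row sums are exactly the upper edge of its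
spectrum). For energies above `E* - δ` the equation for the fractional moments of the Green function is a
contraction by a factor `1 - c` at every site where the potential is below `b - c / λ`. One follows a path of
five neighbouring sites: there is a contraction unless all of them are bad, which has a probability of order
`c^5`; two of these factors are lost in the a priori bound `C / h ~ C / c` (resampling of the potential at two
sites), and `c^3 / c` is small compared to `c`. Second moments are bounded by fractional moments (Graf);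
pure point spectrum and exponential decay follow from a Wiener type theorem localized in energy, and the
simplicity of the eigenvalues.
-/

set_option autoImplicit false

open scoped BigOperators
open MeasureTheory

namespace Pool.Agent.Results.MP_1906c1_mp.MobilityEdge

/-- the sites: the position in the lattice and the layer -/
abbrev Site (d : ℕ) (F : Type) : Type := (Fin d → ℤ) × F

/-- the Hamiltonian
`(H u)(x, f) = -∑_i (u(x + e_i, f) + u(x - e_i, f) - 2 u(x, f)) + ∑_q c(q) u(x, f φ_x(q)) + λ ω(x, f) u(x, f)` -/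
noncomputable def H {d : ℕ} {F : Type} [Group F] (φ : Multiplicative (Fin d → ℤ) →* MulAut F)
    (c : F → ℝ) (lam : ℝ) (ω : Site d F → ℝ) (u : Site d F → ℂ) (p : Site d F) : ℂ :=
  -∑ i : Fin d, ((u (p.1 + Pi.single i 1, p.2) - u p) + (u (p.1 - Pi.single i 1, p.2) - u p)) +
    ∑' q : F, ((c q : ℝ) : ℂ) * u (p.1, p.2 * φ (Multiplicative.ofAdd p.1) q) +
    ((lam * ω p : ℝ) : ℂ) * u p

/-- square summable functions -/
def SqSummable {X : Type} (u : X → ℂ) : Prop := Summable fun x => ‖u x‖ ^ 2

/-- `m` is the spectral measure of the vector `f`: a finite measure whose Borel transform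
`∫ (E - z)⁻¹ dm(E)` is `⟨f, (A - z)⁻¹ f⟩` for all non-real `z` -/
def IsSpectralMeasure {X : Type} (A : (X → ℂ) → X → ℂ) (f : X → ℂ) (m : Measure ℝ) : Prop :=
  IsFiniteMeasure m ∧ ∀ z : ℂ, z.im ≠ 0 → ∃ u : X → ℂ, SqSummable u ∧
    (∀ x, A u x - z * u x = f x) ∧ ∫ E : ℝ, ((E : ℂ) - z)⁻¹ ∂m = ∑' x, (starRingEnd ℂ) (f x) * u x

open Classical in
/-- the unit vector at `p` -/
noncomputable def unit {X : Type} (p : X) (x : X) : ℂ := if x = p then 1 else 0

/-- every vector has a spectral measure -/
def HasSpectralMeasures {X : Type} (A : (X → ℂ) → X → ℂ) : Prop :=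
  ∀ f : X → ℂ, SqSummable f → ∃ m : Measure ℝ, IsSpectralMeasure A f m

/-- the spectrum in `I` is purely absolutely continuous: all spectral measures are absolutely
continuous with respect to the Lebesgue measure in `I` -/
def PurelyAC {X : Type} (A : (X → ℂ) → X → ℂ) (I : Set ℝ) : Prop :=
  ∀ (f : X → ℂ) (m : Measure ℝ), SqSummable f → IsSpectralMeasure A f m →
    ∀ E : Set ℝ, E ⊆ I → volume E = 0 → m E = 0

/-- the spectrum fills `I`: in `I` the Lebesgue measure is absolutely continuous with respect to the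
spectral measure of every site -/
def Fills {X : Type} (A : (X → ℂ) → X → ℂ) (I : Set ℝ) : Prop :=
  ∀ (p : X) (m : Measure ℝ), IsSpectralMeasure A (unit p) m →
    ∀ E : Set ℝ, E ⊆ I → MeasurableSet E → m E = 0 → volume E = 0

/-- the spectrum in `I` is pure point: in `I` all spectral measures are carried by countable sets -/
def PurePoint {X : Type} (A : (X → ℂ) → X → ℂ) (I : Set ℝ) : Prop :=
  ∀ (f : X → ℂ) (m : Measure ℝ), SqSummable f → IsSpectralMeasure A f m →
    ∃ N : Set ℝ, N.Countable ∧ m (I \ N) = 0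

/-- there is an eigenvalue in `I` -/
def HasEigenvalue {X : Type} (A : (X → ℂ) → X → ℂ) (I : Set ℝ) : Prop :=
  ∃ (t : ℝ) (u : X → ℂ), t ∈ I ∧ SqSummable u ∧ (∃ p, u p ≠ 0) ∧ ∀ p, A u p = (t : ℂ) * u p

/-- the eigenfunctions with eigenvalues in `I` decay exponentially in the directions of `ℤ^d`:
`∑_{x, f} e^{γ |x|} |u(x, f)|² < ∞`, `|x| = ∑ |x_i|` -/
def ExpDecay {d : ℕ} {F : Type} (A : (Site d F → ℂ) → Site d F → ℂ) (γ : ℝ) (I : Set ℝ) : Prop :=
  ∀ (t : ℝ) (u : Site d F → ℂ), t ∈ I → SqSummable u → (∀ p, A u p = (t : ℂ) * u p) →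
    Summable fun p : Site d F => Real.exp (γ * ∑ i, |(p.1 i : ℝ)|) * ‖u p‖ ^ 2

/-- a law on `[-1,1]` with a density bounded by `D` -/
def BoundedDensity (D : ℝ) (μ : Measure ℝ) : Prop :=
  (∀ᵐ v ∂μ, |v| ≤ 1) ∧ ∀ A : Set ℝ, MeasurableSet A → μ A ≤ ENNReal.ofReal D * volume A

/-- the upper end of the support of a law -/
noncomputable def upperEnd (μ : Measure ℝ) : ℝ := sInf {t : ℝ | μ (Set.Ioi t) = 0}

/-- **Theorem.** -/
theorem result (d : ℕ) (hd : 1 ≤ d) (α β : ℝ) (hα : 0 < α) (hαβ : α ≤ β) (hβ : β < 4 * d)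
    (h2 : d = 2 → β < 4 ∨ 4 < α) (ε : ℝ) (hε : 0 < ε) :
    ∃ (F : Type) (_ : Group F) (_ : Countable F) (φ : Multiplicative (Fin d → ℤ) →* MulAut F)
      (c : F → ℝ),
      (∀ S : Finset F, ((Subgroup.closure (S : Set F) : Subgroup F) : Set F).Finite) ∧
      (∀ q : F, (Set.range fun x => φ x q).Finite) ∧
      (∀ q, 0 ≤ c q) ∧ (∀ q, c q⁻¹ = c q) ∧ (∀ p : ℝ, 0 < p → Summable fun q => c q ^ p) ∧
      ∑' q, c q ≤ ε ∧
      -- weak disorder, inside of the band
      (∃ lam0 : ℝ, 0 < lam0 ∧ ∀ (μ : Measure ℝ) [IsProbabilityMeasure μ], (∀ᵐ v ∂μ, |v| ≤ 1) →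
        ∀ lam : ℝ, 0 < lam → lam ≤ lam0 → ∀ᵐ ω ∂(Measure.infinitePi fun _ : Site d F => μ),
          HasSpectralMeasures (H φ c lam ω) ∧ PurelyAC (H φ c lam ω) (Set.Icc α β) ∧
          Fills (H φ c lam ω) (Set.Icc α β)) ∧
      ∀ D : ℝ, 0 < D →
        -- near the upper band edge, all laws of bounded density
        (∀ lam : ℝ, 0 < lam → ∃ η γ : ℝ, 0 < η ∧ 0 < γ ∧
          ∀ (μ : Measure ℝ) [IsProbabilityMeasure μ], BoundedDensity D μ →
            ∀ᵐ ω ∂(Measure.infinitePi fun _ : Site d F => μ),
              HasSpectralMeasures (H φ c lam ω) ∧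
              PurePoint (H φ c lam ω) (Set.Ioi (4 * d + ∑' q, c q + lam * upperEnd μ - η)) ∧
              ExpDecay (H φ c lam ω) γ (Set.Ioi (4 * d + ∑' q, c q + lam * upperEnd μ - η)) ∧
              ∀ E : ℝ, E < 4 * d + ∑' q, c q + lam * upperEnd μ →
                HasEigenvalue (H φ c lam ω) (Set.Ioi E)) ∧
        -- strong disorder
        (∃ lam1 : ℝ, 0 < lam1 ∧ ∀ (μ : Measure ℝ) [IsProbabilityMeasure μ], BoundedDensity D μ →
          ∀ lam : ℝ, lam1 ≤ lam → ∀ᵐ ω ∂(Measure.infinitePi fun _ : Site d F => μ),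
            HasSpectralMeasures (H φ c lam ω) ∧ PurePoint (H φ c lam ω) Set.univ ∧
            ExpDecay (H φ c lam ω) 1 Set.univ) := by
  obtain ⟨F, iF, iC, φ, c, a1, a2, a3, a4, a5, a6, lam0, b1, b2⟩ :=
    Pool.Agent.H121.ME.layers d hd α β hα hαβ hβ h2 ε hε
  have hlen : ∀ (γ : ℝ) (p : Site d F), Real.exp (γ * ∑ i, |(p.1 i : ℝ)|) =
      Real.exp (γ * (Pool.Agent.H121.ME.len p : ℕ)) := by
    intro γ p
    congr 2
    unfold Pool.Agent.H121.ME.len
    push_cast
    exact Finset.sum_congr rfl fun i _ => by rw [← Int.cast_abs, Int.abs_eq_natAbs]; rfl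
  have hcm : Summable c := by
    refine (a5 1 one_pos).congr fun q => ?_
    rw [Real.rpow_one]
  refine ⟨F, iF, iC, φ, c, a1, a2, a3, a4, a5, a6, ⟨lam0, b1, fun μ _ hμ lam hl hl0 => ?_⟩,
    fun D hD => ⟨?_, ?_⟩⟩
  · filter_upwards [b2 μ hμ lam hl hl0] with ω hω
    obtain ⟨c1, c2, c3⟩ := hω
    refine ⟨c1, c2, fun p m hm => c3 p m ?_⟩
    have h5 : (fun x => (Pool.Agent.Y662.TR.dv p : Pool.Agent.Y662.TR.LL (Site d F)) x) =
        unit p := by
      funext x
      rw [Pool.Agent.Y662.TR.dv_apply]
      rfl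
    rw [h5]
    exact hm
  · intro lam hlam
    obtain ⟨η, γ, hη, hγ, h⟩ := Pool.Agent.H121.UE.edgeZU hd φ c a1 a2 a3 a4 a5 D hD lam hlam
    refine ⟨η, γ, hη, hγ, fun μ _ hμ => ?_⟩
    obtain ⟨l1, l2⟩ := Pool.Agent.H121.UE.upp_spec μ hμ.1
    filter_upwards [h μ hμ.1 hμ.2 (Pool.Agent.H121.UE.upp μ) l1 l2,
      Pool.Agent.H121.ME.has_sp φ c a3 a4 hcm μ hμ.1 lam] with ω hω hω3
    obtain ⟨h1, h2, h3⟩ := hω
    refine ⟨hω3, fun f m hf hm => h1 f m hf hm, fun t u ht hu hut => ?_, fun E hE => ?_⟩
    · refine (h2 t u ht hu hut).congr fun p => ?_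
      rw [hlen]
    · obtain ⟨t, u, g1, g2, g3, g4⟩ := h3 E hE
      exact ⟨t, u, g1, g2, g3, g4⟩
  · obtain ⟨lam1, hl1, h⟩ := Pool.Agent.H121.ME.strong φ c a3 a4 a5 D hD
    refine ⟨lam1, hl1, fun μ _ hμ lam hlam => ?_⟩
    filter_upwards [h μ hμ.1 hμ.2 lam hlam, Pool.Agent.H121.ME.has_sp φ c a3 a4 hcm μ hμ.1 lam]
      with ω hω hω3
    refine ⟨hω3, fun f m hf hm => ?_, fun t u _ hu hut => ?_⟩
    · obtain ⟨N, hN, hm'⟩ := hω.1 f m hf hm
      refine ⟨N, hN, ?_⟩
      rwa [← Set.compl_eq_univ_sdiff]
    · refine (hω.2 t u hu hut).congr fun p => ?_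
      rw [hlen, one_mul]

end Pool.Agent.Results.MP_1906c1_mp.MobilityEdge
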